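import Mathlib

namespace Pool.Agent.Results.MP_024e1e_ag.CubeGraphNotPrime

open MvPolynomial

/-- The Lovász–Saks–Schrijver ideal `L_G(d)` of a graph `G` on the vertex set `V` over `k`: the
ideal of `k[y_{i,j} : i ∈ V, j ∈ Fin d]` generated by `∑ j, y_{i,j} y_{l,j}` for the edges
`{i, l}` of `G`. -/
noncomputable def lssIdeal (k : Type*) [Field k] {V : Type*} (G : SimpleGraph V) (d : ℕ) :
    Ideal (MvPolynomial (V × Fin d) k) :=
  Ideal.span {f | ∃ i l : V, G.Adj i l ∧ f = ∑ j : Fin d, X (i, j) * X (l, j)}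

/-- the graph of the 3-cube, as `K_{4,4}` minus a perfect matching, inside `K_{5,5}` -/
def Q : SimpleGraph (Fin 5 ⊕ Fin 5) where
  Adj a b := match a, b with
    | Sum.inl i, Sum.inr j => i ≠ j ∧ i.val < 4 ∧ j.val < 4
    | Sum.inr j, Sum.inl i => i ≠ j ∧ i.val < 4 ∧ j.val < 4
    | _, _ => False
  symm := ⟨by
    rintro (a | a) (b | b) h
    · exact h
    · exact h
    · exact h
    · exact h⟩
  loopless := ⟨by
    rintro (a | a) h
    · exact h
    · exact h⟩

instance : DecidableRel Q.Adj := fun a b => by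
  rcases a with a | a <;> rcases b with b | b
  · exact isFalse id
  · exact inferInstanceAs (Decidable (a ≠ b ∧ a.val < 4 ∧ b.val < 4))
  · exact inferInstanceAs (Decidable (b ≠ a ∧ b.val < 4 ∧ a.val < 4))
  · exact isFalse id

lemma Q_le : Q ≤ completeBipartiteGraph (Fin 5) (Fin 5) := by
  intro a b h
  rcases a with a | a <;> rcases b with b | b
  · exact absurd h id
  · simp
  · simp
  · exact absurd h id

lemma deg_le : ∀ v : Fin 5 ⊕ Fin 5, (Q.neighborFinset v).card ≤ 3 := by decide

lemma codeg_le : ∀ v w : Fin 5 ⊕ Fin 5, v ≠ w →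
    (Q.neighborFinset v ∩ Q.neighborFinset w).card ≤ 2 := by decide

open SimpleGraph in
lemma no_biclique (a b : ℕ) (ha : 1 ≤ a) (hb : 1 ≤ b) (hab : 5 ≤ a + b) :
    ¬ (completeBipartiteGraph (Fin a) (Fin b)).IsContained Q := by
  rintro ⟨f⟩
  have hadj : ∀ (i : Fin a) (j : Fin b), Q.Adj (f (Sum.inl i)) (f (Sum.inr j)) := by
    intro i j
    exact f.toHom.map_adj (by simp)
  have hinj : Function.Injective f := f.injective
  -- all the images of the right side are neighbours of the images of the left side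
  have h1 : ∀ i : Fin a, (Finset.univ.image fun j : Fin b => f (Sum.inr j))
      ⊆ Q.neighborFinset (f (Sum.inl i)) := by
    intro i x hx
    rw [Finset.mem_image] at hx
    obtain ⟨j, -, rfl⟩ := hx
    rw [mem_neighborFinset]
    exact hadj i j
  have h2 : ∀ j : Fin b, (Finset.univ.image fun i : Fin a => f (Sum.inl i))
      ⊆ Q.neighborFinset (f (Sum.inr j)) := by
    intro j x hx
    rw [Finset.mem_image] at hx
    obtain ⟨i, -, rfl⟩ := hx
    rw [mem_neighborFinset]
    exact (hadj i j).symm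
  have c1 : (Finset.univ.image fun j : Fin b => f (Sum.inr j)).card = b := by
    rw [Finset.card_image_of_injective _ (fun x y h => Sum.inr_injective (hinj h)),
      Finset.card_univ, Fintype.card_fin]
  have c2 : (Finset.univ.image fun i : Fin a => f (Sum.inl i)).card = a := by
    rw [Finset.card_image_of_injective _ (fun x y h => Sum.inl_injective (hinj h)),
      Finset.card_univ, Fintype.card_fin]
  have hb3 : b ≤ 3 := by
    have := (Finset.card_le_card (h1 ⟨0, ha⟩)).trans (deg_le _)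
    omega
  have ha3 : a ≤ 3 := by
    have := (Finset.card_le_card (h2 ⟨0, hb⟩)).trans (deg_le _)
    omega
  by_cases hb2 : b = 3
  · have ha2 : 1 < a := by omega
    have hne : f (Sum.inl ⟨0, ha⟩) ≠ f (Sum.inl ⟨1, ha2⟩) := by
      intro h
      have := Sum.inl_injective (hinj h)
      simp at this
    have := (Finset.card_le_card (Finset.subset_inter (h1 ⟨0, ha⟩) (h1 ⟨1, ha2⟩))).trans
      (codeg_le _ _ hne)
    omega
  · have hb2' : 1 < b := by omega
    have hne : f (Sum.inr ⟨0, hb⟩) ≠ f (Sum.inr ⟨1, hb2'⟩) := by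
      intro h
      have := Sum.inr_injective (hinj h)
      simp at this
    have := (Finset.card_le_card (Finset.subset_inter (h2 ⟨0, hb⟩) (h2 ⟨1, hb2'⟩))).trans
      (codeg_le _ _ hne)
    omega

/-- `2 × 2` minor of rows `i, j` and columns `p, q` -/
def min2 {R : Type*} [CommRing R] (A : Matrix (Fin 4) (Fin 4) R) (i j p q : Fin 4) : R :=
  A i p * A j q - A i q * A j p

/-- the form separating the second component -/
def gForm {R : Type*} [CommRing R] (V W : Matrix (Fin 4) (Fin 4) R) : R :=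
  min2 V 0 1 0 1 * min2 V 2 3 0 1 * (min2 W 0 2 2 3 * min2 W 1 3 2 3)
    - min2 V 0 2 0 1 * min2 V 1 3 0 1 * (min2 W 0 1 2 3 * min2 W 2 3 2 3)

lemma det4 {R : Type*} [CommRing R] (V : Matrix (Fin 4) (Fin 4) R) :
    V.det =
      V 0 0 * (V 1 1 * (V 2 2 * V 3 3 - V 2 3 * V 3 2) - V 1 2 * (V 2 1 * V 3 3 - V 2 3 * V 3 1)
        + V 1 3 * (V 2 1 * V 3 2 - V 2 2 * V 3 1))
      - V 0 1 * (V 1 0 * (V 2 2 * V 3 3 - V 2 3 * V 3 2) - V 1 2 * (V 2 0 * V 3 3 - V 2 3 * V 3 0)
        + V 1 3 * (V 2 0 * V 3 2 - V 2 2 * V 3 0))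
      + V 0 2 * (V 1 0 * (V 2 1 * V 3 3 - V 2 3 * V 3 1) - V 1 1 * (V 2 0 * V 3 3 - V 2 3 * V 3 0)
        + V 1 3 * (V 2 0 * V 3 1 - V 2 1 * V 3 0))
      - V 0 3 * (V 1 0 * (V 2 1 * V 3 2 - V 2 2 * V 3 1) - V 1 1 * (V 2 0 * V 3 2 - V 2 2 * V 3 0)
        + V 1 2 * (V 2 0 * V 3 1 - V 2 1 * V 3 0)) := by
  rw [Matrix.det_succ_row_zero]
  simp [Fin.sum_univ_succ, Matrix.det_fin_three, Fin.succAbove]
  ring

/-- Jacobi's identity for the complementary minors, in the instances that are needed -/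
lemma jacobi {R : Type*} [CommRing R] (V : Matrix (Fin 4) (Fin 4) R) :
    min2 V.adjugate.transpose 0 2 2 3 = - (V.det * min2 V 1 3 0 1) ∧
    min2 V.adjugate.transpose 1 3 2 3 = - (V.det * min2 V 0 2 0 1) ∧
    min2 V.adjugate.transpose 0 1 2 3 = V.det * min2 V 2 3 0 1 ∧
    min2 V.adjugate.transpose 2 3 2 3 = V.det * min2 V 0 1 0 1 := by
  simp only [min2, Matrix.transpose_apply, Matrix.adjugate_fin_succ_eq_det_submatrix,
    Matrix.det_fin_three, Matrix.submatrix_apply, det4]
  refine ⟨?_, ?_, ?_, ?_⟩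
  all_goals
    simp [Fin.succAbove, Fin.lt_def]
    ring

lemma key {R : Type*} [CommRing R] (V W : Matrix (Fin 4) (Fin 4) R)
    (h : ∀ i j, i ≠ j → ∑ l, W i l * V j l = 0) : V.det ^ 4 * gForm V W = 0 := by
  set d : Fin 4 → R := fun i => ∑ l, W i l * V i l with hd
  have h1 : W * V.transpose = Matrix.diagonal d := by
    ext i j
    rw [Matrix.mul_apply, Matrix.diagonal_apply]
    simp only [Matrix.transpose_apply]
    split_ifs with hij
    · subst hij
      rfl
    · exact h i j hij
  have h2 : ∀ i l, V.det * W i l = d i * V.adjugate.transpose i l := by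
    intro i l
    have h3 : W * V.transpose * V.transpose.adjugate = Matrix.diagonal d * V.transpose.adjugate := by
      rw [h1]
    rw [Matrix.mul_assoc, Matrix.mul_adjugate, Matrix.det_transpose, Matrix.mul_smul,
      Matrix.mul_one] at h3
    have h4 := congrFun (congrFun h3 i) l
    rw [Matrix.smul_apply, smul_eq_mul, Matrix.diagonal_mul, ← Matrix.adjugate_transpose] at h4
    exact h4
  have h3 : ∀ i j p q, V.det ^ 2 * min2 W i j p q
      = d i * d j * min2 V.adjugate.transpose i j p q := by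
    intro i j p q
    unfold min2
    have e1 := h2 i p
    have e2 := h2 j q
    have e3 := h2 i q
    have e4 := h2 j p
    calc V.det ^ 2 * (W i p * W j q - W i q * W j p)
        = (V.det * W i p) * (V.det * W j q) - (V.det * W i q) * (V.det * W j p) := by ring
      _ = _ := by rw [e1, e2, e3, e4]; ring
  obtain ⟨j1, j2, j3, j4⟩ := jacobi V
  have e1 := h3 0 2 2 3
  have e2 := h3 1 3 2 3
  have e3 := h3 0 1 2 3
  have e4 := h3 2 3 2 3
  rw [j1] at e1
  rw [j2] at e2
  rw [j3] at e3
  rw [j4] at e4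
  calc V.det ^ 4 * gForm V W
      = min2 V 0 1 0 1 * min2 V 2 3 0 1 * ((V.det ^ 2 * min2 W 0 2 2 3) * (V.det ^ 2 * min2 W 1 3 2 3))
        - min2 V 0 2 0 1 * min2 V 1 3 0 1 *
          ((V.det ^ 2 * min2 W 0 1 2 3) * (V.det ^ 2 * min2 W 2 3 2 3)) := by
        unfold gForm
        ring
    _ = 0 := by
        rw [e1, e2, e3, e4]
        ring

/-- the generic matrices -/
noncomputable def VX (k : Type*) [Field k] :
    Matrix (Fin 4) (Fin 4) (MvPolynomial ((Fin 5 ⊕ Fin 5) × Fin 4) k) :=
  fun i l => X (Sum.inl i.castSucc, l)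

noncomputable def WX (k : Type*) [Field k] :
    Matrix (Fin 4) (Fin 4) (MvPolynomial ((Fin 5 ⊕ Fin 5) × Fin 4) k) :=
  fun i l => X (Sum.inr i.castSucc, l)

lemma min2_map {R S : Type*} [CommRing R] [CommRing S] (φ : R →+* S)
    (A : Matrix (Fin 4) (Fin 4) R) (i j p q : Fin 4) :
    φ (min2 A i j p q) = min2 (A.map φ) i j p q := by
  simp [min2]

lemma gForm_map {R S : Type*} [CommRing R] [CommRing S] (φ : R →+* S)
    (V W : Matrix (Fin 4) (Fin 4) R) :
    φ (gForm V W) = gForm (V.map φ) (W.map φ) := by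
  simp only [gForm, map_sub, map_mul, min2_map]

lemma not_prime (k : Type*) [Field k] : ¬ (lssIdeal k Q 4).IsPrime := by
  intro hp
  have h1 : (VX k).det ^ 4 * gForm (VX k) (WX k) ∈ lssIdeal k Q 4 := by
    rw [← Ideal.Quotient.eq_zero_iff_mem, map_mul, map_pow, RingHom.map_det, gForm_map]
    apply key
    intro i j hij
    have hadj : Q.Adj (Sum.inr i.castSucc) (Sum.inl j.castSucc) := by
      refine ⟨?_, ?_, ?_⟩
      · intro h
        exact hij (Fin.castSucc_injective _ h).symm
      · exact j.2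
      · exact i.2
    have h2 : (∑ l : Fin 4, X (Sum.inr i.castSucc, l) * X (Sum.inl j.castSucc, l) :
        MvPolynomial ((Fin 5 ⊕ Fin 5) × Fin 4) k) ∈ lssIdeal k Q 4 :=
      Ideal.subset_span ⟨_, _, hadj, rfl⟩
    rw [← Ideal.Quotient.eq_zero_iff_mem, map_sum] at h2
    simp only [map_mul] at h2
    exact h2
  -- evaluation at points of the variety
  have hker : ∀ y : (Fin 5 ⊕ Fin 5) × Fin 4 → k,
      (∀ a b, Q.Adj a b → ∑ l : Fin 4, y (a, l) * y (b, l) = 0) →
      lssIdeal k Q 4 ≤ RingHom.ker (eval y) := by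
    intro y hy
    unfold lssIdeal
    rw [Ideal.span_le]
    rintro _ ⟨a, b, hab, rfl⟩
    change eval y _ = 0
    rw [map_sum]
    simpa using hy a b hab
  rcases hp.mem_or_mem h1 with h2 | h2
  · have h3 := hp.mem_of_pow_mem _ h2
    let y : (Fin 5 ⊕ Fin 5) × Fin 4 → k := fun a => match a with
      | (Sum.inl i, l) => if i.val = l.val then 1 else 0
      | (Sum.inr _, _) => 0
    have h4 : eval y (VX k).det = 0 := by
      refine hker y ?_ h3
      rintro (a | a) (b | b) h
      · exact absurd h id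
      · simp [y]
      · simp [y]
      · exact absurd h id
    rw [RingHom.map_det] at h4
    have h5 : (eval y).mapMatrix (VX k) = 1 := by
      ext i l
      simp only [RingHom.mapMatrix_apply, Matrix.map_apply, VX, eval_X, y, Matrix.one_apply]
      congr 1
      rw [Fin.ext_iff]
      rfl
    rw [h5, Matrix.det_one] at h4
    exact one_ne_zero h4
  · let y : (Fin 5 ⊕ Fin 5) × Fin 4 → k := fun a => match a with
      | (Sum.inl i, l) => ![![1, 0, 0, 0], ![0, 1, 0, 0], ![1, 0, 0, 0], ![0, 1, 0, 0],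
          ![0, 0, 0, 0]] i l
      | (Sum.inr i, l) => ![![0, 0, 1, 0], ![0, 0, 1, 0], ![0, 0, 0, 1], ![0, 0, 0, 1],
          ![0, 0, 0, 0]] i l
    have h4 : eval y (gForm (VX k) (WX k)) = 0 := by
      refine hker y ?_ h2
      rintro (a | a) (b | b) h
      · exact absurd h id
      · fin_cases a <;> fin_cases b <;> simp [y, Fin.sum_univ_four]
      · fin_cases a <;> fin_cases b <;> simp [y, Fin.sum_univ_four]
      · exact absurd h id
    rw [gForm_map] at h4
    simp [gForm, min2, VX, WX, y, Fin.castSucc] at h4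

/-- For every field `k` there is a subgraph `G` of `K_{5,5}` (the graph of the 3-cube together with
two isolated vertices) that contains no `K_{a,b}` with `a, b ≥ 1` and `a + b ≥ 5`, while the LSS
ideal `L_G(4)` is not prime. -/
theorem result (k : Type*) [Field k] :
    ∃ G : SimpleGraph (Fin 5 ⊕ Fin 5), G ≤ completeBipartiteGraph (Fin 5) (Fin 5) ∧
      (∀ a b : ℕ, 1 ≤ a → 1 ≤ b → 5 ≤ a + b →
        ¬ (completeBipartiteGraph (Fin a) (Fin b)).IsContained G) ∧
      ¬ (lssIdeal k G 4).IsPrime :=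
  ⟨Q, Q_le, no_biclique, not_prime k⟩

end Pool.Agent.Results.MP_024e1e_ag.CubeGraphNotPrime
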